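import Pool.Agent.N804.GM.AllZ
import Pool.Agent.N603.GM_8
import Pool.Agent.N438.GM_9
import Pool.Agent.N866.GM_10

set_option autoImplicit false

/-! # Project GM: all parts -/

namespace Pool.Agent.N804.GM

theorem gv : S_GV := Pool.Agent.N603.GM8.main pj
theorem gr : S_GR := Pool.Agent.N438.GM9.main
theorem gc : S_GC := Pool.Agent.N866.GM10.main

end Pool.Agent.N804.GM
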