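import Pool.Agent.N804.GM.StmS
import Pool.Agent.N163.SC_1
import Pool.Agent.N491.SC_2
import Pool.Agent.N700.SC_3
import Pool.Agent.N907.SC_4
import Pool.Agent.N603.SC_5

set_option autoImplicit false

/-! # Project SC: all parts -/

namespace Pool.Agent.N804.GM

theorem strip : S_STRIP := Pool.Agent.N491.SC2.main Pool.Agent.N163.SC1.main
theorem cvx : S_CVX := Pool.Agent.N700.SC3.main strip
theorem half : S_HALF := Pool.Agent.N907.SC4.main strip cvx
theorem sc : S_SC := Pool.Agent.N603.SC5.main strip half cvx

end Pool.Agent.N804.GM
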