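import Pool.Agent.N804.GM.Fin
import Pool.Agent.N79.GM_1
import Pool.Agent.N34.GM_2
import Pool.Agent.N27.GM_3
import Pool.Agent.N700.GM_4
import Pool.Agent.N866.GM_5
import Pool.Agent.N572.GM_6

set_option autoImplicit false

/-! # Project GM: all parts, the zeta function -/

namespace Pool.Agent.N804.GM

theorem disc : S_DISC := Pool.Agent.N79.GM1.main
theorem pj : S_PJ := Pool.Agent.N34.GM2.main disc
theorem zv : S_ZV := Pool.Agent.N27.GM3.main pj
theorem zh : S_ZH := Pool.Agent.N700.GM4.main pj
theorem hu : S_HU := Pool.Agent.N866.GM5.hu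
theorem ch : S_CH := Pool.Agent.N866.GM5.ch
theorem cv : S_CV := Pool.Agent.N572.GM6.main

end Pool.Agent.N804.GM
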