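import Pool.Agent.N804.GM.Stm
import Pool.Agent.N799.GL.Main

set_option autoImplicit false

/-! # Project GM: geometric means of L-functions and the Lindelöf hypothesis; families -/

namespace Pool.Agent.N804.GM

open Filter Topology Set MeasureTheory
open Pool.Agent.W188.GLR Pool.Agent.N799.LH Pool.Agent.N799.GL

/-- the logarithm of the Poisson mean of width `a` (times `π / a`) -/
noncomputable def PM (a : ℝ) (f : ℂ → ℂ) (t : ℝ) : ℝ :=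
  ∫ u : ℝ, Real.log ‖f (1 / 2 + u * Complex.I)‖ / (a ^ 2 + (u - t) ^ 2)

/-- GM8: the Poisson mean bounds the zeros from above, uniformly in a family -/
def S_GV : Prop := ∀ (ι : Type) (m : ℕ) (N : ι → ℕ) (mu : ι → Fin m → ℂ) (f : ι → ℂ → ℂ)
  (X : ι → ℝ → ℝ) (δ a b : ℝ), GLData m N mu f X δ → 1 / 2 ≤ a → 0 < b →
  (∀ i (s : ℂ), 1 / 2 + a ≤ s.re → 1 / b ≤ ‖f i s‖ ∧ ‖f i s‖ ≤ b) →
  ∀ A : ℝ, ∃ C : ℝ, 0 < C ∧ ∀ (i : ι) (t : ℝ),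
    Integrable (fun u : ℝ => Real.log ‖f i (1 / 2 + u * Complex.I)‖ / (a ^ 2 + (u - t) ^ 2)) ∧
    ∀ S : Finset ℂ, (∀ s ∈ S, 1 / 2 < s.re ∧ |s.im - t| ≤ A ∧ f i s = 0) →
      ∑ s ∈ S, (analyticOrderNatAt (f i) s : ℝ) * (s.re - 1 / 2) ≤ C * (PM a (f i) t + C)

/-- GM9: few zeros to the right of the critical line imply small values -/
def S_GR : Prop := ∀ (ι : Type) (m : ℕ) (N : ι → ℕ) (mu : ι → Fin m → ℂ) (f : ι → ℂ → ℂ)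
  (X : ι → ℝ → ℝ) (δ κ b : ℝ), GLData m N mu f X δ → 1 ≤ κ → 0 < b →
  (∀ i (s : ℂ), κ ≤ s.re → 1 / b ≤ ‖f i s‖ ∧ ‖f i s‖ ≤ b) →
  ∀ ε : ℝ, 0 < ε → ∃ η A X₀ : ℝ, 0 < η ∧ ∀ (i : ι) (t : ℝ), X₀ ≤ X i t →
    ZL (f i) {s | 1 / 2 + η ≤ s.re ∧ |s.im - t| ≤ A} (η * Real.log (X i t)) →
    ‖f i (1 / 2 + t * Complex.I)‖ ≤ X i t ^ ε

/-- GM10: the converse in a family -/
def S_GC : Prop := ∀ (ι : Type) (m : ℕ) (N : ι → ℕ) (mu : ι → Fin m → ℂ) (f : ι → ℂ → ℂ)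
  (X : ι → ℝ → ℝ) (δ a : ℝ), GLData m N mu f X δ → 0 < a →
  (∀ ε : ℝ, 0 < ε → ∃ C : ℝ, ∀ (i : ι) (t : ℝ), ‖f i (1 / 2 + t * Complex.I)‖ ≤ C * X i t ^ ε) →
  ∀ ε : ℝ, 0 < ε → ∃ X₀ : ℝ, ∀ (i : ι) (t : ℝ), X₀ ≤ X i t → PM a (f i) t ≤ ε * Real.log (X i t)

end Pool.Agent.N804.GM
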