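import Pool.Agent.N804.GM.Loc
import Pool.Agent.N804.GM.StmG

set_option autoImplicit false

/-! # Assembly of project GM -/

namespace Pool.Agent.N804.GM

open Filter Topology Set MeasureTheory
open Pool.Agent.W188.GLR Pool.Agent.N799.LH Pool.Agent.N799.GL

/-- LH from bounds for large heights -/
lemma LHy_of (h : ∀ ε : ℝ, 0 < ε → ∃ t₀ : ℝ, 1 ≤ t₀ ∧ ∀ t : ℝ, t₀ ≤ t →
    ‖riemannZeta (1 / 2 + t * Complex.I)‖ ≤ t ^ ε) : LHy := by
  have := LHyp_of (h := fun ε hε => by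
    obtain ⟨t₀, ht₀, h1⟩ := h ε hε
    refine ⟨t₀, fun t ht => ?_⟩
    have h2 := h1 t ht
    rwa [pt', rpow_exp (by linarith)] at h2)
  exact this

/-- the criteria for the zeta function -/
theorem zeta_crit (hZV : S_ZV) (hZH : S_ZH) (hHU : S_HU) (hCV : S_CV) (hCH : S_CH) :
    List.TFAE [LHy, ∀ ε : ℝ, 0 < ε → ∀ᶠ t : ℝ in atTop, VV t ≤ ε * Real.log t,
      ∀ ε : ℝ, 0 < ε → ∀ᶠ t : ℝ in atTop, HH t ≤ ε * Real.log t] := by
  tfae_have 1 → 2 := by
    intro h ε hε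
    obtain ⟨t₀, h1⟩ := hCV h ε hε
    filter_upwards [eventually_ge_atTop t₀] with t ht using h1 t ht
  tfae_have 1 → 3 := by
    intro h ε hε
    obtain ⟨t₀, h1⟩ := hCH h ε hε
    filter_upwards [eventually_ge_atTop t₀] with t ht using h1 t ht
  tfae_have 2 → 1 := by
    intro h
    refine LHy_of fun ε hε => ?_
    obtain ⟨η, t₀, hη, ht₀, h1⟩ := loc_V hZV ε hε
    obtain ⟨t₁, h2⟩ := eventually_atTop.1 (h η hη)
    exact ⟨max t₀ t₁, ht₀.trans (le_max_left _ _), fun t ht =>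
      h1 t ((le_max_left _ _).trans ht) (h2 t ((le_max_right _ _).trans ht))⟩
  tfae_have 3 → 1 := by
    intro h
    refine LHy_of fun ε hε => ?_
    obtain ⟨η, A, t₀, hη, ht₀, h1⟩ := loc_H hZH hHU ε hε
    obtain ⟨t₁, h2⟩ := eventually_atTop.1 (h (η / 2) (by positivity))
    refine ⟨max t₀ (max 2 (max (t₁ + |A|) (2 * |A|))), ht₀.trans (le_max_left _ _), fun t ht =>
      h1 t ((le_max_left _ _).trans ht) fun u hu => ?_⟩
    have k := (le_max_right _ _).trans ht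
    have k1 : 2 ≤ t := (le_max_left _ _).trans k
    have k2 : t₁ + |A| ≤ t := (le_max_left _ _).trans ((le_max_right _ _).trans k)
    have k3 : 2 * |A| ≤ t := (le_max_right _ _).trans ((le_max_right _ _).trans k)
    have hA := le_abs_self A
    obtain ⟨u1, u2⟩ := abs_le.1 hu
    refine (h2 u (by linarith)).trans ?_
    have hu0 : 0 < u := by linarith
    have : Real.log u ≤ 2 * Real.log t := by
      have e : 2 * Real.log t = Real.log (t ^ 2) := by rw [Real.log_pow]; norm_num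
      rw [e]
      exact Real.log_le_log hu0 (by nlinarith)
    calc η / 2 * Real.log u ≤ η / 2 * (2 * Real.log t) := by gcongr
      _ = η * Real.log t := by ring
  tfae_finish

/-- the local theorem in families -/
theorem fam_loc (hGV : S_GV) (hGR : S_GR) (ι : Type) (m : ℕ) (N : ι → ℕ) (mu : ι → Fin m → ℂ)
    (f : ι → ℂ → ℂ) (X : ι → ℝ → ℝ) (δ a b : ℝ) (H : GLData m N mu f X δ) (ha : 1 / 2 ≤ a)
    (hb : 0 < b) (hf : ∀ i (s : ℂ), 1 / 2 + a ≤ s.re → 1 / b ≤ ‖f i s‖ ∧ ‖f i s‖ ≤ b) (ε : ℝ)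
    (hε : 0 < ε) : ∃ η X₀ : ℝ, 0 < η ∧ ∀ (i : ι) (t : ℝ), X₀ ≤ X i t →
      PM a (f i) t ≤ η * Real.log (X i t) → ‖f i (1 / 2 + t * Complex.I)‖ ≤ X i t ^ ε := by
  obtain ⟨η1, A, X1, hη1, hR⟩ := hGR ι m N mu f X δ (1 / 2 + a) b H (by linarith) hb hf ε hε
  obtain ⟨C, hC, hV⟩ := hGV ι m N mu f X δ a b H ha hb hf A
  refine ⟨η1 ^ 2 / (2 * C), max X1 (Real.exp (2 * C ^ 2 / η1 ^ 2)), by positivity,
    fun i t hX hP => hR i t ((le_max_left _ _).trans hX) fun S hS => ?_⟩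
  have hX0 : 0 < X i t := lt_of_lt_of_le (Real.exp_pos _) ((le_max_right _ _).trans hX)
  have hL : 2 * C ^ 2 / η1 ^ 2 ≤ Real.log (X i t) :=
    (Real.le_log_iff_exp_le hX0).2 ((le_max_right _ _).trans hX)
  rw [div_le_iff₀ (by positivity)] at hL
  have h1 := (hV i t).2 S (fun s hs => by
    obtain ⟨⟨g1, g2⟩, g3⟩ := hS s hs
    exact ⟨by linarith, g2, g3⟩)
  have h2 : η1 * ∑ z ∈ S, (analyticOrderNatAt (f i) z : ℝ) ≤
      ∑ s ∈ S, (analyticOrderNatAt (f i) s : ℝ) * (s.re - 1 / 2) := by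
    rw [Finset.mul_sum]
    refine Finset.sum_le_sum fun s hs => ?_
    obtain ⟨⟨g1, g2⟩, g3⟩ := hS s hs
    rw [mul_comm]
    have : η1 ≤ s.re - 1 / 2 := by linarith
    gcongr
  have h3 : C * (PM a (f i) t + C) ≤ η1 ^ 2 * Real.log (X i t) := by
    calc C * (PM a (f i) t + C) ≤ C * (η1 ^ 2 / (2 * C) * Real.log (X i t) + C) := by gcongr
      _ = η1 ^ 2 / 2 * Real.log (X i t) + C ^ 2 := by field_simp
      _ ≤ η1 ^ 2 * Real.log (X i t) := by linarith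
  have h4 : η1 * ∑ z ∈ S, (analyticOrderNatAt (f i) z : ℝ) ≤ η1 * (η1 * Real.log (X i t)) := by
    calc _ ≤ _ := h2
      _ ≤ _ := h1
      _ ≤ _ := h3
      _ = _ := by ring
  exact le_of_mul_le_mul_left h4 hη1

end Pool.Agent.N804.GM
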