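import Pool.Agent.N804.GM.Stm
import Pool.Agent.N799.LH.Main

set_option autoImplicit false

/-! # Local theorems for the zeta function -/

namespace Pool.Agent.N804.GM

open Filter Topology Set MeasureTheory
open Pool.Agent.N799.LH Pool.Agent.N799.SP

lemma pt' (t : ℝ) : (1 / 2 + t * Complex.I : ℂ) = ⟨1 / 2, t⟩ := by
  apply Complex.ext <;> simp

/-- an integrable majorant -/
lemma int_pow {r : ℝ} (hr : 1 < r) : Integrable fun y : ℝ => (1 + y ^ 2) ^ (-r / 2) := by
  have h := integrable_rpow_neg_one_add_norm_sq (E := ℝ) (μ := volume) (r := r) (by simpa using hr)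
  simpa only [Real.norm_eq_abs, sq_abs] using h

/-- the majorant for the tails -/
lemma maj_int : Integrable fun y : ℝ =>
    (1 + Real.log (1 + |y|)) * (|y| ^ (1 / 2 : ℝ)) / (1 + y ^ 2) := by
  have h := (int_pow (r := 5 / 4) (by norm_num)).const_mul 12
  refine h.mono' ?_ (ae_of_all _ fun y => ?_)
  · refine Measurable.aestronglyMeasurable ?_
    fun_prop
  · have hy := abs_nonneg y
    have h1 : 0 < 1 + |y| := by positivity
    have h2 : 0 ≤ Real.log (1 + |y|) := Real.log_nonneg (by linarith)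
    have h3 : 0 < 1 + y ^ 2 := by positivity
    rw [Real.norm_of_nonneg (by positivity)]
    have e1 : Real.log (1 + |y|) ≤ (1 + |y|) ^ (1 / 8 : ℝ) / (1 / 8) :=
      Real.log_le_rpow_div h1.le (by norm_num)
    have e2 : (1 + |y|) ^ 2 ≤ 2 * (1 + y ^ 2) := by
      rw [← sq_abs y]
      nlinarith [sq_nonneg (|y| - 1)]
    have e3 : (1 + |y|) ^ (1 / 8 : ℝ) ≤ (2 * (1 + y ^ 2)) ^ (1 / 16 : ℝ) := by
      have : (1 + |y|) ^ (1 / 8 : ℝ) = ((1 + |y|) ^ 2) ^ (1 / 16 : ℝ) := by
        rw [← Real.rpow_natCast, ← Real.rpow_mul h1.le]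
        norm_num
      rw [this]
      gcongr
    have e4 : (1 : ℝ) ≤ (1 + y ^ 2) ^ (1 / 16 : ℝ) :=
      Real.one_le_rpow (by nlinarith [sq_nonneg y]) (by norm_num)
    have e5 : (2 * (1 + y ^ 2)) ^ (1 / 16 : ℝ) ≤ (11 / 8) * (1 + y ^ 2) ^ (1 / 16 : ℝ) := by
      rw [Real.mul_rpow (by norm_num) h3.le]
      gcongr
      have : (2 : ℝ) ^ (1 / 16 : ℝ) ≤ ((11 / 8 : ℝ) ^ 16) ^ (1 / 16 : ℝ) := by
        gcongr
        norm_num
      refine this.trans (le_of_eq ?_)
      rw [← Real.rpow_natCast, ← Real.rpow_mul (by norm_num)]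
      norm_num
    have e6 : 1 + Real.log (1 + |y|) ≤ 12 * (1 + y ^ 2) ^ (1 / 16 : ℝ) := by
      have : Real.log (1 + |y|) ≤ 11 * (1 + y ^ 2) ^ (1 / 16 : ℝ) := by
        refine e1.trans ?_
        rw [div_le_iff₀ (by norm_num)]
        linarith
      linarith
    have e7 : |y| ^ (1 / 2 : ℝ) ≤ (1 + y ^ 2) ^ (1 / 4 : ℝ) := by
      have : |y| ^ (1 / 2 : ℝ) = (|y| ^ 2) ^ (1 / 4 : ℝ) := by
        rw [← Real.rpow_natCast, ← Real.rpow_mul hy]
        norm_num
      rw [this, sq_abs]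
      gcongr
      linarith
    have e8 : (1 + y ^ 2) ^ (1 / 16 : ℝ) * (1 + y ^ 2) ^ (1 / 4 : ℝ) / (1 + y ^ 2) =
        (1 + y ^ 2) ^ (-(11 / 16) : ℝ) := by
      rw [← Real.rpow_add h3, div_eq_mul_inv, ← Real.rpow_neg_one, ← Real.rpow_add h3]
      norm_num
    calc (1 + Real.log (1 + |y|)) * (|y| ^ (1 / 2 : ℝ)) / (1 + y ^ 2)
        ≤ (12 * (1 + y ^ 2) ^ (1 / 16 : ℝ)) * (1 + y ^ 2) ^ (1 / 4 : ℝ) / (1 + y ^ 2) := by
          gcongr
      _ = 12 * ((1 + y ^ 2) ^ (1 / 16 : ℝ) * (1 + y ^ 2) ^ (1 / 4 : ℝ) / (1 + y ^ 2)) := by ring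
      _ = 12 * (1 + y ^ 2) ^ (-(11 / 16) : ℝ) := by rw [e8]
      _ ≤ 12 * (1 + y ^ 2) ^ (-(5 / 4) / 2 : ℝ) := by
          gcongr
          · nlinarith [sq_nonneg y]
          · norm_num

/-- **local theorem, vertical means** -/
theorem loc_V (hZV : S_ZV) (ε : ℝ) (hε : 0 < ε) : ∃ η t₀ : ℝ, 0 < η ∧ 1 ≤ t₀ ∧ ∀ t : ℝ, t₀ ≤ t →
    VV t ≤ η * Real.log t → ‖riemannZeta (1 / 2 + t * Complex.I)‖ ≤ t ^ ε := by
  obtain ⟨η1, A, t1, hη1, ht1, hQ⟩ := QQ [] ε hε
  obtain ⟨C, hC, hZ⟩ := hZV A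
  obtain ⟨t2, ht2, hlg⟩ := log_large (2 * C ^ 2 / η1 ^ 2)
  refine ⟨η1 ^ 2 / (2 * C), max t1 t2, by positivity, le_trans (by linarith) (le_max_left _ _),
    fun t ht hV => ?_⟩
  have k1 : t1 ≤ t := (le_max_left _ _).trans ht
  have k2 : t2 ≤ t := (le_max_right _ _).trans ht
  have hL := hlg t k2
  rw [div_le_iff₀ (by positivity)] at hL
  rw [pt', rpow_exp (by linarith)]
  refine hQ t k1 fun S hS => ?_
  change ∑ z ∈ S, (analyticOrderNatAt riemannZeta z : ℝ) ≤ η1 * Real.log t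
  have h1 := (hZ t (by linarith)).2 S (fun s hs => by
    obtain ⟨⟨g1, g2⟩, g3⟩ := hS s hs
    exact ⟨by linarith, g2, g3⟩)
  have h2 : η1 * ∑ z ∈ S, (analyticOrderNatAt riemannZeta z : ℝ) ≤
      ∑ s ∈ S, (analyticOrderNatAt riemannZeta s : ℝ) * (s.re - 1 / 2) := by
    rw [Finset.mul_sum]
    refine Finset.sum_le_sum fun s hs => ?_
    obtain ⟨⟨g1, g2⟩, g3⟩ := hS s hs
    rw [mul_comm]
    have : η1 ≤ s.re - 1 / 2 := by linarith
    gcongr
  have h3 : C * (VV t + C) ≤ η1 ^ 2 * Real.log t := by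
    calc C * (VV t + C) ≤ C * (η1 ^ 2 / (2 * C) * Real.log t + C) := by gcongr
      _ = η1 ^ 2 / 2 * Real.log t + C ^ 2 := by field_simp
      _ ≤ η1 ^ 2 * Real.log t := by linarith
  have h4 : η1 * ∑ z ∈ S, (analyticOrderNatAt riemannZeta z : ℝ) ≤ η1 * (η1 * Real.log t) := by
    calc _ ≤ _ := h2
      _ ≤ _ := h1
      _ ≤ _ := h3
      _ = _ := by ring
  exact le_of_mul_le_mul_left h4 hη1

/-- **local theorem, horizontal means** -/
theorem loc_H (hZH : S_ZH) (hHU : S_HU) (ε : ℝ) (hε : 0 < ε) : ∃ η A t₀ : ℝ, 0 < η ∧ 1 ≤ t₀ ∧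
    ∀ t : ℝ, t₀ ≤ t → (∀ u : ℝ, |u - t| ≤ A → HH u ≤ η * Real.log t) →
      ‖riemannZeta (1 / 2 + t * Complex.I)‖ ≤ t ^ ε := by
  obtain ⟨η1, A1, t1, hη1, ht1, hQ⟩ := QQ [] ε hε
  obtain ⟨C, hC, hZ⟩ := hZH A1
  obtain ⟨C', hC', hU⟩ := hHU
  set K : ℝ := ∫ y : ℝ, (1 + Real.log (1 + |y|)) * (|y| ^ (1 / 2 : ℝ)) / (1 + y ^ 2) with hK
  have hK0 : 0 ≤ K := integral_nonneg fun y => by
    have : 0 ≤ Real.log (1 + |y|) := Real.log_nonneg (by linarith [abs_nonneg y])
    positivity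
  -- the constants
  set η : ℝ := η1 ^ 3 / (4 * (Real.pi + 1) * C) with hη
  have hπ := Real.pi_pos
  have hη0 : 0 < η := by positivity
  set B : ℝ := 3 * C' * K / η + 1 with hB
  have hB1 : 1 ≤ B := by
    have : 0 ≤ 3 * C' * K / η := by positivity
    linarith
  obtain ⟨t2, ht2, hlg⟩ := log_large (max 1 (2 * C ^ 2 / η1 ^ 3))
  refine ⟨η, B ^ 2, max t1 t2, hη0, le_trans (by linarith) (le_max_left _ _), fun t ht hH => ?_⟩
  have k1 : t1 ≤ t := (le_max_left _ _).trans ht
  have k2 : t2 ≤ t := (le_max_right _ _).trans ht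
  have hL1 : 1 ≤ Real.log t := (le_max_left _ _).trans (hlg t k2)
  have hL := (le_max_right _ _).trans (hlg t k2)
  rw [div_le_iff₀ (by positivity)] at hL
  have ht4 : 4 ≤ t := by linarith
  obtain ⟨hi, hS'⟩ := hZ t ht4
  rw [pt', rpow_exp (by linarith)]
  -- the integral
  have hmain : ∫ u : ℝ, HH u / (1 + (u - t) ^ 2) ≤ (Real.pi + 1) * η * Real.log t := by
    have hi2 : Integrable fun y : ℝ => HH (t + y) / (1 + y ^ 2) := by
      have := hi.comp_add_left t
      simpa only [add_sub_cancel_left] using this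
    have e : ∫ u : ℝ, HH u / (1 + (u - t) ^ 2) = ∫ y : ℝ, HH (t + y) / (1 + y ^ 2) := by
      rw [← integral_add_left_eq_self (μ := volume) (fun u : ℝ => HH u / (1 + (u - t) ^ 2)) t]
      simp only [add_sub_cancel_left]
    rw [e]
    have hb : ∀ y : ℝ, HH (t + y) / (1 + y ^ 2) ≤ η * Real.log t * (1 + y ^ 2)⁻¹ +
        3 * C' * Real.log t / B *
          ((1 + Real.log (1 + |y|)) * (|y| ^ (1 / 2 : ℝ)) / (1 + y ^ 2)) := by
      intro y
      have h3 : 0 < 1 + y ^ 2 := by positivity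
      have hly : 0 ≤ Real.log (1 + |y|) := Real.log_nonneg (by linarith [abs_nonneg y])
      have e1 : η * Real.log t * (1 + y ^ 2)⁻¹ + 3 * C' * Real.log t / B *
          ((1 + Real.log (1 + |y|)) * (|y| ^ (1 / 2 : ℝ)) / (1 + y ^ 2)) =
          (η * Real.log t + 3 * C' * Real.log t / B *
            ((1 + Real.log (1 + |y|)) * (|y| ^ (1 / 2 : ℝ)))) / (1 + y ^ 2) := by
        field_simp
      rw [e1]
      gcongr
      by_cases hy : |y| ≤ B ^ 2
      · have := hH (t + y) (by simpa using hy)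
        have : 0 ≤ 3 * C' * Real.log t / B * ((1 + Real.log (1 + |y|)) * (|y| ^ (1 / 2 : ℝ))) := by
          positivity
        linarith
      · rw [not_le] at hy
        have e2 : B ≤ |y| ^ (1 / 2 : ℝ) := by
          have : B = (B ^ 2) ^ (1 / 2 : ℝ) := by
            rw [← Real.rpow_natCast, ← Real.rpow_mul (by linarith)]
            norm_num
          rw [this]
          gcongr
        have e3 : HH (t + y) ≤ C' * (1 + Real.log (1 + |t + y|)) := hU _
        have e4 : Real.log (1 + |t + y|) ≤ Real.log (1 + t) + Real.log (1 + |y|) := by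
          rw [← Real.log_mul (by positivity) (by positivity)]
          refine Real.log_le_log (by positivity) ?_
          have := abs_add_le t y
          rw [abs_of_pos (show 0 < t by linarith)] at this
          have : 0 ≤ t * |y| := by positivity
          nlinarith
        have e5 : Real.log (1 + t) ≤ Real.log t + 1 := by
          have : Real.log (1 + t) ≤ Real.log (2 * t) := Real.log_le_log (by linarith) (by linarith)
          rw [Real.log_mul (by norm_num) (by linarith)] at this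
          have := Real.log_two_lt_d9
          linarith
        have e6 : C' * (1 + Real.log (1 + |t + y|)) ≤ 3 * C' * Real.log t *
            (1 + Real.log (1 + |y|)) := by
          have e7 : 1 + Real.log (1 + |t + y|) ≤ 3 * Real.log t * (1 + Real.log (1 + |y|)) := by
            nlinarith [mul_nonneg (show 0 ≤ Real.log t - 1 by linarith) hly]
          calc C' * (1 + Real.log (1 + |t + y|)) ≤
              C' * (3 * Real.log t * (1 + Real.log (1 + |y|))) := by gcongr
            _ = _ := by ring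
        have e8 : 3 * C' * Real.log t * (1 + Real.log (1 + |y|)) ≤
            3 * C' * Real.log t / B * ((1 + Real.log (1 + |y|)) * (|y| ^ (1 / 2 : ℝ))) := by
          have e9 : 3 * C' * Real.log t / B * ((1 + Real.log (1 + |y|)) * (|y| ^ (1 / 2 : ℝ))) =
              3 * C' * Real.log t * (1 + Real.log (1 + |y|)) * (|y| ^ (1 / 2 : ℝ) / B) := by
            field_simp
          rw [e9]
          refine le_mul_of_one_le_right (by positivity) ?_
          rw [one_le_div (by linarith)]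
          exact e2
        have : 0 ≤ η * Real.log t := by positivity
        linarith
    have j := integral_mono hi2 ((integrable_inv_one_add_sq.const_mul (η * Real.log t)).add
      (maj_int.const_mul (3 * C' * Real.log t / B))) hb
    have e2 : ∫ y : ℝ, (η * Real.log t * (1 + y ^ 2)⁻¹ + 3 * C' * Real.log t / B *
        ((1 + Real.log (1 + |y|)) * (|y| ^ (1 / 2 : ℝ)) / (1 + y ^ 2))) =
        η * Real.log t * Real.pi + 3 * C' * Real.log t / B * K := by
      rw [integral_add (integrable_inv_one_add_sq.const_mul _) (maj_int.const_mul _),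
        integral_const_mul, integral_const_mul, integral_univ_inv_one_add_sq]
    have j2 : ∫ y : ℝ, HH (t + y) / (1 + y ^ 2) ≤
        η * Real.log t * Real.pi + 3 * C' * Real.log t / B * K := j.trans (le_of_eq e2)
    have j3 : 3 * C' * K / B ≤ η := by
      rw [div_le_iff₀ (by linarith), hB, mul_add, mul_one, mul_div_cancel₀ _ hη0.ne']
      linarith
    calc _ ≤ η * Real.log t * Real.pi + 3 * C' * Real.log t / B * K := j2
      _ = η * Real.log t * Real.pi + (3 * C' * K / B) * Real.log t := by ring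
      _ ≤ η * Real.log t * Real.pi + η * Real.log t := by gcongr
      _ = _ := by ring
  refine hQ t k1 fun S hS => ?_
  change ∑ z ∈ S, (analyticOrderNatAt riemannZeta z : ℝ) ≤ η1 * Real.log t
  have h1 := hS' S (fun s hs => by
    obtain ⟨⟨g1, g2⟩, g3⟩ := hS s hs
    exact ⟨by linarith, g2, g3⟩)
  have h2 : η1 ^ 2 * ∑ z ∈ S, (analyticOrderNatAt riemannZeta z : ℝ) ≤
      ∑ s ∈ S, (analyticOrderNatAt riemannZeta s : ℝ) * (s.re - 1 / 2) ^ 2 := by
    rw [Finset.mul_sum]
    refine Finset.sum_le_sum fun s hs => ?_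
    obtain ⟨⟨g1, g2⟩, g3⟩ := hS s hs
    rw [mul_comm]
    have : η1 ≤ s.re - 1 / 2 := by linarith
    gcongr
  have h3 : C * ((∫ u : ℝ, HH u / (1 + (u - t) ^ 2)) + C) ≤ η1 ^ 3 * Real.log t := by
    calc C * ((∫ u : ℝ, HH u / (1 + (u - t) ^ 2)) + C) ≤
        C * ((Real.pi + 1) * η * Real.log t + C) := by gcongr
      _ = η1 ^ 3 / 4 * Real.log t + C ^ 2 := by
          rw [hη]
          field_simp
      _ ≤ η1 ^ 3 * Real.log t := by
          have : 0 ≤ η1 ^ 3 * Real.log t := by positivity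
          linarith
  have h4 : η1 ^ 2 * ∑ z ∈ S, (analyticOrderNatAt riemannZeta z : ℝ) ≤
      η1 ^ 2 * (η1 * Real.log t) := by
    calc _ ≤ _ := h2
      _ ≤ _ := h1
      _ ≤ _ := h3
      _ = _ := by ring
  exact le_of_mul_le_mul_left h4 (by positivity)

end Pool.Agent.N804.GM
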