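import Mathlib

set_option autoImplicit false

/-! # Project GM: geometric means of L-functions and the Lindelöf hypothesis; statements over Mathlib -/

namespace Pool.Agent.N804.GM

open Filter Topology Set MeasureTheory

/-- GM1: Jensen's inequality on the closed unit disc with one bad boundary point -/
def S_DISC : Prop := ∀ (F : ℂ → ℂ) (A : ℝ), AnalyticOnNhd ℂ F (Metric.closedBall 0 1 \ {-1}) →
  (∀ w ∈ Metric.closedBall (0 : ℂ) 1 \ {-1},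
    ‖F w‖ ≤ Real.exp (A * (1 + Real.log (1 + 1 / ‖1 + w‖)))) → F 0 ≠ 0 →
  IntervalIntegrable (fun θ : ℝ => Real.log ‖F (Complex.exp (θ * Complex.I))‖) volume
    (-Real.pi) Real.pi ∧
  ∀ S : Finset ℂ, (∀ w ∈ S, ‖w‖ < 1 ∧ F w = 0) →
    Real.log ‖F 0‖ + ∑ w ∈ S, (analyticOrderNatAt F w : ℝ) * Real.log (1 / ‖w‖) ≤
      1 / (2 * Real.pi) * ∫ θ in (-Real.pi)..Real.pi, Real.log ‖F (Complex.exp (θ * Complex.I))‖

/-- GM2: the Poisson-Jensen inequality in the right half-plane -/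
def S_PJ : Prop := ∀ (f : ℂ → ℂ) (A a : ℝ), 0 < a → AnalyticOnNhd ℂ f {z : ℂ | 0 ≤ z.re} →
  (∀ z : ℂ, 0 ≤ z.re → ‖f z‖ ≤ Real.exp (A * (1 + Real.log (1 + ‖z‖)))) → f a ≠ 0 →
  Integrable (fun y : ℝ => Real.log ‖f (y * Complex.I)‖ / (a ^ 2 + y ^ 2)) ∧
  ∀ S : Finset ℂ, (∀ z ∈ S, 0 < z.re ∧ f z = 0) →
    Real.log ‖f a‖ + ∑ z ∈ S, (analyticOrderNatAt f z : ℝ) *
        Real.log (‖(a : ℂ) + z‖ / ‖(a : ℂ) - z‖) ≤
      a / Real.pi * ∫ y : ℝ, Real.log ‖f (y * Complex.I)‖ / (a ^ 2 + y ^ 2)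

/-- the logarithm of the Poisson mean of `|ζ|` on the critical line, centred at height `t`
(times `π`) -/
noncomputable def VV (t : ℝ) : ℝ :=
  ∫ u : ℝ, Real.log ‖riemannZeta (1 / 2 + u * Complex.I)‖ / (1 + (u - t) ^ 2)

/-- the mean of `log |ζ|` over the horizontal segment from `1/2 + iu` to `1 + iu` (times `1/2`) -/
noncomputable def HH (u : ℝ) : ℝ :=
  ∫ σ in (1 / 2 : ℝ)..1, Real.log ‖riemannZeta (σ + u * Complex.I)‖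

/-- the Lindelöf hypothesis -/
def LHy : Prop := ∀ ε : ℝ, 0 < ε → ∃ C : ℝ, ∀ t : ℝ,
  ‖riemannZeta (1 / 2 + t * Complex.I)‖ ≤ C * (1 + |t|) ^ ε

/-- GM3: the Poisson mean bounds the zeros from above -/
def S_ZV : Prop := ∀ A : ℝ, ∃ C : ℝ, 0 < C ∧ ∀ t : ℝ, 4 ≤ t →
  Integrable (fun u : ℝ => Real.log ‖riemannZeta (1 / 2 + u * Complex.I)‖ / (1 + (u - t) ^ 2)) ∧
  ∀ S : Finset ℂ, (∀ s ∈ S, 1 / 2 < s.re ∧ |s.im - t| ≤ A ∧ riemannZeta s = 0) →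
    ∑ s ∈ S, (analyticOrderNatAt riemannZeta s : ℝ) * (s.re - 1 / 2) ≤ C * (VV t + C)

/-- GM4: the horizontal means bound the zeros from above -/
def S_ZH : Prop := ∀ A : ℝ, ∃ C : ℝ, 0 < C ∧ ∀ t : ℝ, 4 ≤ t →
  Integrable (fun u : ℝ => HH u / (1 + (u - t) ^ 2)) ∧
  ∀ S : Finset ℂ, (∀ s ∈ S, 1 / 2 < s.re ∧ |s.im - t| ≤ A ∧ riemannZeta s = 0) →
    ∑ s ∈ S, (analyticOrderNatAt riemannZeta s : ℝ) * (s.re - 1 / 2) ^ 2 ≤
      C * ((∫ u : ℝ, HH u / (1 + (u - t) ^ 2)) + C)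

/-- GM5: a crude upper bound for the horizontal means -/
def S_HU : Prop := ∃ C : ℝ, 0 < C ∧ ∀ u : ℝ, HH u ≤ C * (1 + Real.log (1 + |u|))

/-- GM6: the converse for the Poisson means -/
def S_CV : Prop := LHy → ∀ ε : ℝ, 0 < ε → ∃ t₀ : ℝ, ∀ t : ℝ, t₀ ≤ t → VV t ≤ ε * Real.log t

/-- GM7: the converse for the horizontal means -/
def S_CH : Prop := LHy → ∀ ε : ℝ, 0 < ε → ∃ t₀ : ℝ, ∀ t : ℝ, t₀ ≤ t → HH t ≤ ε * Real.log t

end Pool.Agent.N804.GM
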