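import Pool.Agent.N804.GM.StmG

set_option autoImplicit false

/-! # Project SC: subconvexity and geometric means; statements -/

namespace Pool.Agent.N804.GM

open Filter Topology Set MeasureTheory
open Pool.Agent.W188.GLR Pool.Agent.N799.LH Pool.Agent.N799.GL

/-- SC1: Jensen's inequality on the closed unit disc with two bad boundary points -/
def S_DISC2 : Prop := ∀ (F : ℂ → ℂ) (A : ℝ), AnalyticOnNhd ℂ F (Metric.closedBall 0 1 \ {-1, 1}) →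
  (∀ w ∈ Metric.closedBall (0 : ℂ) 1 \ {-1, 1},
    ‖F w‖ ≤ Real.exp (A * (1 + Real.log (1 + 1 / ‖1 + w‖) + Real.log (1 + 1 / ‖1 - w‖)))) →
  F 0 ≠ 0 →
  IntervalIntegrable (fun θ : ℝ => Real.log ‖F (Complex.exp (θ * Complex.I))‖) volume
    (-Real.pi) Real.pi ∧
  Real.log ‖F 0‖ ≤
    1 / (2 * Real.pi) * ∫ θ in (-Real.pi)..Real.pi, Real.log ‖F (Complex.exp (θ * Complex.I))‖

/-- SC2: the inequality of Jensen in a strip, at its centre -/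
def S_STRIP : Prop := ∀ (f : ℂ → ℂ) (A W : ℝ), 0 < W →
  AnalyticOnNhd ℂ f {s : ℂ | 0 ≤ s.re ∧ s.re ≤ W} →
  (∀ s : ℂ, 0 ≤ s.re → s.re ≤ W → ‖f s‖ ≤ Real.exp (A * (1 + |s.im|))) → f (W / 2) ≠ 0 →
  Integrable (fun y : ℝ => Real.log ‖f (y * Complex.I)‖ / Real.cosh (Real.pi * y / W)) ∧
  Integrable (fun y : ℝ => Real.log ‖f (W + y * Complex.I)‖ / Real.cosh (Real.pi * y / W)) ∧
  Real.log ‖f (W / 2)‖ ≤ 1 / (2 * W) * ∫ y : ℝ,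
    (Real.log ‖f (y * Complex.I)‖ + Real.log ‖f (W + y * Complex.I)‖) /
      Real.cosh (Real.pi * y / W)

/-- SC3: the convexity bound, uniform in the family -/
def S_CVX : Prop := ∀ (ι : Type) (m : ℕ) (N : ι → ℕ) (mu : ι → Fin m → ℂ) (f : ι → ℂ → ℂ)
  (X : ι → ℝ → ℝ) (δ : ℝ), GLData m N mu f X δ → ∀ ε : ℝ, 0 < ε → ∃ C : ℝ, 0 ≤ C ∧
    ∀ (i : ι) (u : ℝ), Real.log ‖f i (1 / 2 + u * Complex.I)‖ ≤ (1 / 4 + ε) * la N mu (i, u) + C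

/-- SC4: from the critical line to the line `Re s = 3/4 + η` -/
def S_HALF : Prop := ∃ c : ℝ, 0 < c ∧ ∀ (ι : Type) (m : ℕ) (N : ι → ℕ) (mu : ι → Fin m → ℂ)
  (f : ι → ℂ → ℂ) (X : ι → ℝ → ℝ) (δ : ℝ), GLData m N mu f X δ → ∀ η : ℝ, 0 < η → η ≤ 1 / 4 →
  ∃ C : ℝ, 0 ≤ C ∧ ∀ (i : ι) (u : ℝ), f i ((3 / 4 + η : ℝ) + u * Complex.I) ≠ 0 →
    Real.log ‖f i ((3 / 4 + η : ℝ) + u * Complex.I)‖ ≤ (1 / 8 + 4 * η) * la N mu (i, u) + C ∧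
    ∀ t : ℝ, |u - t| ≤ 1 →
      Real.log ‖f i ((3 / 4 + η : ℝ) + u * Complex.I)‖ ≤ (1 / 8 + 4 * η) * la N mu (i, t) + C -
        c * ∫ v in (t - 1)..(t + 1), (1 / 4 * la N mu (i, t) -
          Real.log ‖f i (1 / 2 + v * Complex.I)‖)

/-- SC5: the value at a point against the convexity bound and the geometric mean -/
def S_SC : Prop := ∃ c : ℝ, 0 < c ∧ c < 1 ∧ ∀ (ι : Type) (m : ℕ) (N : ι → ℕ)
  (mu : ι → Fin m → ℂ) (f : ι → ℂ → ℂ) (X : ι → ℝ → ℝ) (δ : ℝ), GLData m N mu f X δ →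
  ∀ ε : ℝ, 0 < ε → ∃ C : ℝ, 0 ≤ C ∧ ∀ (i : ι) (t : ℝ), f i (1 / 2 + t * Complex.I) ≠ 0 →
    Real.log ‖f i (1 / 2 + t * Complex.I)‖ ≤ (1 - c) * (1 / 4 * la N mu (i, t)) +
      c * (1 / 2 * ∫ v in (t - 1)..(t + 1), Real.log ‖f i (1 / 2 + v * Complex.I)‖) +
      ε * la N mu (i, t) + C

end Pool.Agent.N804.GM
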